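import Mathlib

/-!
# Equal values of the totient function at consecutive integers: definitions
-/

set_option autoImplicit false

open Finset
open scoped Nat

namespace Pool.Agent.TN

/-- The `y`-smooth part of `m`. -/
def sm (y m : ℕ) : ℕ := (m.primeFactorsList.filter (fun p => decide (p ≤ y))).prod

/-- The `y`-rough part of `m`. -/
def ro (y m : ℕ) : ℕ := (m.primeFactorsList.filter (fun p => decide (y < p))).prod

/-- The product of `r - 1` over the primes `r` dividing `n`. -/
def U (n : ℕ) : ℕ := ∏ r ∈ n.primeFactors, (r - 1)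

/-- `n` divided by its radical. -/
def KK (n : ℕ) : ℕ := n / ∏ r ∈ n.primeFactors, r

/-- The sum of `1 / p` over the primes `p ≤ x`. -/
noncomputable def W (x : ℕ) : ℝ := ∑ p ∈ (Finset.Icc 1 x).filter Nat.Prime, (1 / p : ℝ)

end Pool.Agent.TN
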