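import Pool.Agent.Helper9.TN.Defs
import Pool.Agent.Helper16.UB.Mert

/-!
# TN-1: basic facts
-/

set_option autoImplicit false

open Finset
open scoped Nat

namespace Pool.Agent.TN

theorem sm_mul_ro {y m : ℕ} (hm : m ≠ 0) : sm y m * ro y m = m := by
  unfold sm ro
  have h : (m.primeFactorsList.filter (fun p => decide (y < p))) =
      m.primeFactorsList.filter (fun p => !decide (p ≤ y)) := by
    apply List.filter_congr
    intro p _
    rcases lt_or_ge y p with h | h
    · rw [decide_eq_true h, decide_eq_false (not_le.2 h)]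
      rfl
    · rw [decide_eq_false (not_lt.2 h), decide_eq_true h]
      rfl
  rw [h]
  conv_rhs => rw [← Nat.prod_primeFactorsList hm]
  have := List.filter_append_perm (fun p => decide (p ≤ y)) m.primeFactorsList
  rw [← this.prod_eq, List.prod_append]

theorem sm_pos (y m : ℕ) : 0 < sm y m := by
  unfold sm
  apply List.prod_pos
  intro p hp
  exact (Nat.prime_of_mem_primeFactorsList (List.mem_of_mem_filter hp)).pos

theorem ro_pos (y m : ℕ) : 0 < ro y m := by
  unfold ro
  apply List.prod_pos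
  intro p hp
  exact (Nat.prime_of_mem_primeFactorsList (List.mem_of_mem_filter hp)).pos

theorem sm_mul {y a b : ℕ} (ha : a ≠ 0) (hb : b ≠ 0) : sm y (a * b) = sm y a * sm y b := by
  unfold sm
  have h := (Nat.perm_primeFactorsList_mul ha hb).filter (fun p => decide (p ≤ y))
  rw [h.prod_eq, List.filter_append, List.prod_append]

theorem ro_mul {y a b : ℕ} (ha : a ≠ 0) (hb : b ≠ 0) : ro y (a * b) = ro y a * ro y b := by
  unfold ro
  have h := (Nat.perm_primeFactorsList_mul ha hb).filter (fun p => decide (y < p))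
  rw [h.prod_eq, List.filter_append, List.prod_append]

theorem sm_one (y : ℕ) : sm y 1 = 1 := by
  simp [sm]

theorem ro_one (y : ℕ) : ro y 1 = 1 := by
  simp [ro]

theorem sm_prod {ι : Type} {y : ℕ} (s : Finset ι) (f : ι → ℕ) (hf : ∀ i ∈ s, f i ≠ 0) :
    sm y (∏ i ∈ s, f i) = ∏ i ∈ s, sm y (f i) := by
  classical
  induction s using Finset.induction_on with
  | empty => simp [sm_one]
  | insert i s hi ih =>
    rw [Finset.prod_insert hi, Finset.prod_insert hi, sm_mul (hf i (Finset.mem_insert_self i s)),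
      ih fun j hj => hf j (Finset.mem_insert_of_mem hj)]
    exact Finset.prod_ne_zero_iff.2 fun j hj => hf j (Finset.mem_insert_of_mem hj)

theorem lt_of_dvd_ro {y m p : ℕ} (hp : p.Prime) (h : p ∣ ro y m) : y < p := by
  unfold ro at h
  obtain ⟨q, hq, hpq⟩ := (Prime.dvd_prod_iff hp.prime).1 h
  rw [List.mem_filter] at hq
  have hqp := Nat.prime_of_mem_primeFactorsList hq.1
  rw [(Nat.prime_dvd_prime_iff_eq hp hqp).1 hpq]
  simpa using hq.2

theorem le_of_dvd_sm {y m p : ℕ} (hp : p.Prime) (h : p ∣ sm y m) : p ≤ y := by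
  unfold sm at h
  obtain ⟨q, hq, hpq⟩ := (Prime.dvd_prod_iff hp.prime).1 h
  rw [List.mem_filter] at hq
  have hqp := Nat.prime_of_mem_primeFactorsList hq.1
  rw [(Nat.prime_dvd_prime_iff_eq hp hqp).1 hpq]
  simpa using hq.2

theorem ro_dvd {y m : ℕ} (hm : m ≠ 0) : ro y m ∣ m := ⟨sm y m, by rw [mul_comm, sm_mul_ro hm]⟩

theorem sm_dvd {y m : ℕ} (hm : m ≠ 0) : sm y m ∣ m := ⟨ro y m, (sm_mul_ro hm).symm⟩

theorem dvd_ro {y d m : ℕ} (hm : m ≠ 0) (hd : d ∣ m) (h : ∀ p, p.Prime → p ∣ d → y < p) :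
    d ∣ ro y m := by
  have hc : Nat.Coprime d (sm y m) := by
    rw [Nat.coprime_iff_gcd_eq_one]
    by_contra hne
    obtain ⟨p, hp, hpd⟩ := Nat.exists_prime_and_dvd hne
    have h1 := h p hp (hpd.trans (Nat.gcd_dvd_left _ _))
    have h2 := le_of_dvd_sm hp (hpd.trans (Nat.gcd_dvd_right _ _))
    omega
  rw [← sm_mul_ro (y := y) hm] at hd
  exact hc.dvd_of_dvd_mul_left hd

theorem U_pos (n : ℕ) : 0 < U n := by
  unfold U
  apply Finset.prod_pos
  intro r hr
  have := (Nat.prime_of_mem_primeFactors hr).two_le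
  omega

theorem U_le {n : ℕ} (hn : n ≠ 0) : U n ≤ n := by
  unfold U
  calc ∏ r ∈ n.primeFactors, (r - 1) ≤ ∏ r ∈ n.primeFactors, r :=
        Finset.prod_le_prod' fun _ _ => Nat.sub_le _ 1
    _ ≤ n := Nat.le_of_dvd (Nat.pos_of_ne_zero hn) (Nat.prod_primeFactors_dvd n)

theorem rad_mul_KK (n : ℕ) : (∏ r ∈ n.primeFactors, r) * KK n = n := by
  unfold KK
  exact Nat.mul_div_cancel' (Nat.prod_primeFactors_dvd n)

theorem rad_pos (n : ℕ) : 0 < ∏ r ∈ n.primeFactors, r :=
  Finset.prod_pos fun r hr => (Nat.prime_of_mem_primeFactors hr).pos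

theorem KK_pos {n : ℕ} (hn : n ≠ 0) : 0 < KK n := by
  have h := rad_mul_KK n
  rcases Nat.eq_zero_or_pos (KK n) with h0 | h0
  · rw [h0, mul_zero] at h
    exact absurd h.symm hn
  · exact h0

theorem U_mul {a b : ℕ} (h : a.Coprime b) : U (a * b) = U a * U b := by
  unfold U
  rw [h.primeFactors_mul, Finset.prod_union h.disjoint_primeFactors]

theorem totient_eq {n : ℕ} (hn : n ≠ 0) : φ n = U n * KK n := by
  have h := Nat.totient_mul_prod_primeFactors n
  have h2 := rad_mul_KK n
  have h3 : φ n * (∏ r ∈ n.primeFactors, r) = (U n * KK n) * ∏ r ∈ n.primeFactors, r := by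
    calc φ n * (∏ r ∈ n.primeFactors, r) = n * U n := h
      _ = ((∏ r ∈ n.primeFactors, r) * KK n) * U n := by rw [h2]
      _ = (U n * KK n) * ∏ r ∈ n.primeFactors, r := by ring
  exact Nat.eq_of_mul_eq_mul_right (rad_pos n) h3

theorem pow_dvd_KK {n p e : ℕ} (hp : p.Prime) (hn : n ≠ 0) (h : p ^ (e + 1) ∣ n) :
    p ^ e ∣ KK n := by
  have hpn : p ∈ n.primeFactors :=
    Nat.mem_primeFactors.2 ⟨hp, (dvd_pow_self p (Nat.succ_ne_zero e)).trans h, hn⟩
  have h2 := rad_mul_KK n
  rw [← h2, ← Finset.mul_prod_erase _ _ hpn, pow_succ, mul_comm (p ^ e) p, mul_assoc] at h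
  have h3 : p ^ e ∣ (∏ x ∈ n.primeFactors.erase p, x) * KK n :=
    Nat.dvd_of_mul_dvd_mul_left hp.pos h
  refine (Nat.Coprime.dvd_of_dvd_mul_left ?_ h3)
  apply Nat.Coprime.pow_left
  apply Nat.Coprime.prod_right
  intro q hq
  rw [Nat.coprime_primes hp (Nat.prime_of_mem_primeFactors (Finset.mem_of_mem_erase hq))]
  exact (Finset.ne_of_mem_erase hq).symm

theorem prod_primes_le (s : Finset ℕ) : (∀ p ∈ s, p.Prime) →
    ∏ p ∈ s, p ≤ (∏ p ∈ s, (p - 1)) * (1 + s.card) := by
  induction s using Finset.strongInduction with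
  | H s ih =>
    intro hs
    rcases s.eq_empty_or_nonempty with h | h
    · subst h; simp
    · set q := s.max' h with hq
      have hqs : q ∈ s := s.max'_mem h
      have hqp := hs q hqs
      have h1 := ih (s.erase q) (Finset.erase_ssubset hqs) fun p hp =>
        hs p (Finset.mem_of_mem_erase hp)
      have hcard : s.card + 1 ≤ q := by
        have hsub : s ⊆ Finset.Icc 2 q := by
          intro p hp
          rw [Finset.mem_Icc]
          exact ⟨(hs p hp).two_le, s.le_max' p hp⟩
        have := Finset.card_le_card hsub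
        rw [Nat.card_Icc] at this
        have := hqp.two_le
        omega
      have hce : (s.erase q).card + 1 = s.card := Finset.card_erase_add_one hqs
      rw [← Finset.mul_prod_erase s _ hqs, ← Finset.mul_prod_erase s (fun p => p - 1) hqs]
      obtain ⟨t, ht⟩ : ∃ t, q = t + 1 := ⟨q - 1, by have := hqp.two_le; omega⟩
      have ht1 : q - 1 = t := by omega
      rw [ht1]
      calc q * ∏ x ∈ s.erase q, x
          ≤ q * ((∏ p ∈ s.erase q, (p - 1)) * (1 + (s.erase q).card)) :=
            Nat.mul_le_mul_left _ h1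
        _ = (∏ p ∈ s.erase q, (p - 1)) * (q * s.card) := by
            rw [show 1 + (s.erase q).card = s.card by omega]; ring
        _ ≤ (∏ p ∈ s.erase q, (p - 1)) * (t * (1 + s.card)) := by
            refine Nat.mul_le_mul_left _ ?_
            rw [ht]
            have : s.card ≤ t := by omega
            nlinarith
        _ = t * (∏ x ∈ s.erase q, (x - 1)) * (1 + s.card) := by ring

theorem card_primeFactors_le_log {n : ℕ} (hn : n ≠ 0) : n.primeFactors.card ≤ Nat.log 2 n := by
  have h : 2 ^ n.primeFactors.card ≤ n := by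
    calc 2 ^ n.primeFactors.card = ∏ _p ∈ n.primeFactors, 2 := by rw [Finset.prod_const]
      _ ≤ ∏ p ∈ n.primeFactors, p :=
          Finset.prod_le_prod' fun p hp => (Nat.prime_of_mem_primeFactors hp).two_le
      _ ≤ n := Nat.le_of_dvd (Nat.pos_of_ne_zero hn) (Nat.prod_primeFactors_dvd n)
  exact (Nat.le_log_iff_pow_le (by norm_num) hn).2 h

/-- `n / φ(n) ≤ 1 + ω(n) ≤ 1 + log₂ n` -/
theorem le_totient_mul {n : ℕ} (hn : n ≠ 0) : n ≤ φ n * (1 + Nat.log 2 n) := by
  have h1 := prod_primes_le n.primeFactors fun p hp => Nat.prime_of_mem_primeFactors hp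
  rw [totient_eq hn]
  calc n = (∏ r ∈ n.primeFactors, r) * KK n := (rad_mul_KK n).symm
    _ ≤ (U n * (1 + n.primeFactors.card)) * KK n := Nat.mul_le_mul_right _ h1
    _ ≤ (U n * (1 + Nat.log 2 n)) * KK n := by
        refine Nat.mul_le_mul_right _ (Nat.mul_le_mul_left _ ?_)
        have := card_primeFactors_le_log hn
        omega
    _ = U n * KK n * (1 + Nat.log 2 n) := by ring

/-- Mertens, upper bound -/
theorem W_le : ∃ C : ℝ, 0 < C ∧ ∀ x : ℕ, 3 ≤ x → W x ≤ Real.log (Real.log x) + C := by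
  obtain ⟨C, hC⟩ := Pool.Agent.Helper16.UB.exists_W_le
  refine ⟨|C| + 1, by positivity, fun x hx => ?_⟩
  have h := hC x (by omega)
  have h2 : W x = Pool.Agent.Helper16.UB.W x := rfl
  rw [h2]
  have := le_abs_self C
  linarith

end Pool.Agent.TN
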