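import Pool.Agent.Helper9.TN.Pieces

/-!
# TN-10: the main theorem
-/

set_option autoImplicit false

open Finset
open scoped Nat

namespace Pool.Agent.TN

/-- class 7: the good part -/
theorem piece_G {ε σ : ℝ} (hε : 0 < ε) (hε1 : ε ≤ 1 / 10) (hσ : σ = ε ^ 2 / 30000) :
    ∀ᶠ N : ℕ in Filter.atTop, ∀ y : ℕ, (Real.log N) ^ (1 + ε) ≤ y → ∀ S : Finset ℕ,
      (∀ n ∈ S, 1 ≤ n ∧ n ≤ N ∧ ∃ a b : ℕ, a ∣ n ∧ b ∣ n + 1 ∧ Squarefree a ∧
        Squarefree b ∧ ((a * b : ℕ) : ℝ) ≤ (N : ℝ) ^ (1 + σ) ∧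
        (N : ℝ) ^ (ε / 3528) ≤ ((Nat.gcd (U a) (ro y (U b)) : ℕ) : ℝ)) →
      (S.card : ℝ) ≤ (N : ℝ) ^ (1 - σ / 8) := by
  obtain ⟨C, hC, h⟩ := good_count hε (by linarith : ε ≤ 1)
  have hσ0 : 0 < σ := by rw [hσ]; positivity
  have h1 := log_pow_le C (a := σ / 2) (by positivity)
  have h2 := const_le_pow 2 hσ0
  filter_upwards [h, h1, h2, Filter.eventually_ge_atTop 1] with N h h1 h2 hN y hy S hS
  have hN1 : (1 : ℝ) ≤ N := by exact_mod_cast hN
  have hN0 : (0 : ℝ) < N := by linarith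
  have hX : (N : ℝ) + 1 ≤ (N : ℝ) ^ (1 + σ) := by
    rw [Real.rpow_add hN0, Real.rpow_one]
    nlinarith
  have hz : 1 ≤ (N : ℝ) ^ (ε / 3528) := Real.one_le_rpow hN1 (by positivity)
  refine (h y hy _ _ hX hz S hS).trans ?_
  rw [← Real.rpow_mul hN0.le, ← Real.rpow_add hN0]
  calc (N : ℝ) ^ (1 + σ + ε / 3528 * -(ε / 4)) * (Real.log N) ^ C
      ≤ (N : ℝ) ^ (1 + σ + ε / 3528 * -(ε / 4)) * (N : ℝ) ^ (σ / 2) :=
        mul_le_mul_of_nonneg_left h1 (by positivity)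
    _ = (N : ℝ) ^ (1 + σ + ε / 3528 * -(ε / 4) + σ / 2) := (Real.rpow_add hN0 _ _).symm
    _ ≤ (N : ℝ) ^ (1 - σ / 8) := by
        apply Real.rpow_le_rpow_of_exponent_le hN1
        rw [hσ]
        have : 0 < ε ^ 2 := by positivity
        nlinarith

/-- the exceptional class -/
theorem rough_small {ε σ : ℝ} (hε : 0 < ε) (hε1 : ε ≤ 1 / 10) (hσ : σ = ε ^ 2 / 30000) :
    ∀ᶠ N : ℕ in Filter.atTop, ∀ y n : ℕ, n ≤ N → (N : ℝ) ^ (1 - σ) < n →
      (KK n : ℝ) ≤ (N : ℝ) ^ (σ / 2) → (ro y (φ n) : ℝ) < (N : ℝ) ^ ε →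
      (N : ℝ) ^ (1 - 2 * ε) ≤ (sm y (U n) : ℝ) := by
  have hσ0 : 0 < σ := by rw [hσ]; positivity
  have hσε : 4 * σ ≤ ε := by rw [hσ]; nlinarith
  have h2 := log_add_le (a := ε / 4) (by positivity) 1 2
  filter_upwards [h2, Filter.eventually_ge_atTop 1] with N h2 hN y n hnN hbig hk hro
  have hN1 : (1 : ℝ) ≤ N := by exact_mod_cast hN
  have hN0 : (0 : ℝ) < N := by linarith
  have hn0 : n ≠ 0 := by
    rintro rfl
    have : (0 : ℝ) < (N : ℝ) ^ (1 - σ) := by positivity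
    push_cast at hbig
    linarith
  have hnR : (0 : ℝ) < n := by exact_mod_cast Nat.pos_of_ne_zero hn0
  have hnNR : (n : ℝ) ≤ N := by exact_mod_cast hnN
  -- lower bound for the totient
  have h3 : (n : ℝ) ≤ φ n * (N : ℝ) ^ (ε / 4) := by
    have h4 : (n : ℝ) ≤ φ n * (1 + Nat.log 2 n) := by exact_mod_cast le_totient_mul hn0
    have h5 : ((Nat.log 2 n : ℕ) : ℝ) ≤ 2 * Real.log N := by
      have h6 : ((Nat.log 2 n : ℕ) : ℝ) ≤ Real.logb 2 n := by
        have := Real.natLog_le_logb n 2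
        exact_mod_cast this
      have h7 : Real.logb 2 n = Real.log n / Real.log 2 := rfl
      have h8 : Real.log n ≤ Real.log N := Real.log_le_log hnR hnNR
      have h9 : 0 ≤ Real.log N := Real.log_nonneg hN1
      have h10 : Real.log n / Real.log 2 ≤ 2 * Real.log N := by
        rw [div_le_iff₀ (Real.log_pos (by norm_num))]
        have := Real.log_two_gt_d9
        nlinarith
      linarith
    calc (n : ℝ) ≤ φ n * (1 + Nat.log 2 n) := h4
      _ ≤ φ n * (N : ℝ) ^ (ε / 4) := by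
          refine mul_le_mul_of_nonneg_left ?_ (Nat.cast_nonneg _)
          linarith
  have hφ0 : φ n ≠ 0 := (Nat.totient_pos.2 (Nat.pos_of_ne_zero hn0)).ne'
  have h4 : (φ n : ℝ) = (sm y (U n) : ℝ) * sm y (KK n) * ro y (φ n) := by
    have e1 := sm_mul_ro (y := y) hφ0
    have e2 : sm y (φ n) = sm y (U n) * sm y (KK n) := by
      rw [totient_eq hn0, sm_mul (U_pos n).ne' (KK_pos hn0).ne']
    rw [e2] at e1
    exact_mod_cast e1.symm
  have h5 : ((sm y (KK n) : ℕ) : ℝ) ≤ (N : ℝ) ^ (σ / 2) := by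
    have : sm y (KK n) ≤ KK n := Nat.le_of_dvd (KK_pos hn0) (sm_dvd (KK_pos hn0).ne')
    exact le_trans (by exact_mod_cast this) hk
  have hsm0 : (0 : ℝ) ≤ sm y (U n) := Nat.cast_nonneg _
  have h6 : (φ n : ℝ) ≤ (sm y (U n) : ℝ) * (N : ℝ) ^ (σ / 2) * (N : ℝ) ^ ε := by
    rw [h4]
    gcongr
  have h7 : (N : ℝ) ^ (1 - σ) ≤
      (sm y (U n) : ℝ) * ((N : ℝ) ^ (σ / 2) * (N : ℝ) ^ ε * (N : ℝ) ^ (ε / 4)) := by
    calc (N : ℝ) ^ (1 - σ) ≤ n := hbig.le
      _ ≤ φ n * (N : ℝ) ^ (ε / 4) := h3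
      _ ≤ ((sm y (U n) : ℝ) * (N : ℝ) ^ (σ / 2) * (N : ℝ) ^ ε) * (N : ℝ) ^ (ε / 4) :=
          mul_le_mul_of_nonneg_right h6 (by positivity)
      _ = _ := by ring
  rw [← Real.rpow_add hN0, ← Real.rpow_add hN0] at h7
  have h8 : (N : ℝ) ^ (1 - σ) = (N : ℝ) ^ (1 - σ - (σ / 2 + ε + ε / 4)) *
      (N : ℝ) ^ (σ / 2 + ε + ε / 4) := by
    rw [← Real.rpow_add hN0]
    ring_nf
  rw [h8] at h7
  have h9 : (N : ℝ) ^ (1 - σ - (σ / 2 + ε + ε / 4)) ≤ sm y (U n) :=
    le_of_mul_le_mul_right h7 (by positivity)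
  refine le_trans (Real.rpow_le_rpow_of_exponent_le hN1 ?_) h9
  linarith

theorem power_part {ε σ : ℝ} (hε : 0 < ε) (hε1 : ε ≤ 1 / 10) (hσ : σ = ε ^ 2 / 30000) :
    ∀ᶠ N : ℕ in Filter.atTop, ∀ y : ℕ, (Real.log N) ^ (1 + ε) ≤ y → ∀ S : Finset ℕ,
      (∀ n ∈ S, 1 ≤ n ∧ n ≤ N ∧ φ n = φ (n + 1) ∧
        ¬ ((N : ℝ) ^ (1 - 2 * ε) ≤ (sm y (U n) : ℝ))) →
      (S.card : ℝ) ≤ 14 * (N : ℝ) ^ (1 - σ / 8) := by
  have hσ0 : 0 < σ := by rw [hσ]; positivity
  have hσ1 : σ ≤ 1 / 100 := by rw [hσ]; nlinarith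
  have hσε : 4 * σ ≤ ε := by rw [hσ]; nlinarith
  have h2 := const_le_pow 2 hσ0
  filter_upwards [piece_D hσ0 hσ1, piece_E hσ0 hσ1, piece_F hσ0 hσ1, piece_G hε hε1 hσ,
    rough_small hε hε1 hσ, cc_facts, h2, Filter.eventually_ge_atTop 1]
    with N hD hE hF hG hR hc h2 hN y hy S hS
  have hN1 : (1 : ℝ) ≤ N := by exact_mod_cast hN
  have hN0 : (0 : ℝ) < N := by linarith
  obtain ⟨hc1, hc2, hc3, hc4⟩ := hc
  set w := (N : ℝ) ^ (σ / 2) with hw
  have hw1 : 1 ≤ w := Real.one_le_rpow hN1 (by positivity)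
  have hX : (N : ℝ) + 1 ≤ (N : ℝ) ^ (1 + σ) := by
    rw [Real.rpow_add hN0, Real.rpow_one]
    nlinarith
  have hz0 : 0 ≤ (N : ℝ) ^ (ε / 3528) := by positivity
  have hRle : w ^ 2 * ((N : ℝ) ^ (ε / 3528)) ^ (42 * 42) ≤ (N : ℝ) ^ ε := by
    rw [hw, ← Real.rpow_natCast, ← Real.rpow_natCast, ← Real.rpow_mul hN0.le,
      ← Real.rpow_mul hN0.le, ← Real.rpow_add hN0]
    apply Real.rpow_le_rpow_of_exponent_le hN1
    push_cast
    linarith
  have hB : (N : ℝ) ^ (1 - σ / 2) ≤ (N : ℝ) ^ (1 - σ / 8) :=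
    Real.rpow_le_rpow_of_exponent_le hN1 (by linarith)
  have hB2 : (N : ℝ) ^ (1 - σ) ≤ (N : ℝ) ^ (1 - σ / 8) :=
    Real.rpow_le_rpow_of_exponent_le hN1 (by linarith)
  have hsq : (N : ℝ) / Real.sqrt w ≤ (N : ℝ) ^ (1 - σ / 8) := by
    have e1 : Real.sqrt w = (N : ℝ) ^ (σ / 4) := by
      rw [hw, Real.sqrt_eq_rpow, ← Real.rpow_mul hN0.le]
      ring_nf
    rw [e1]
    nth_rewrite 1 [← Real.rpow_one (N : ℝ)]
    rw [← Real.rpow_sub hN0]
    exact Real.rpow_le_rpow_of_exponent_le hN1 (by linarith)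
  have hw0 : 0 ≤ w := by linarith
  -- the cover
  have hcov : ∀ n ∈ S, (n : ℝ) ≤ (N : ℝ) ^ (1 - σ) ∨ (w < KK n ∨ (w < KK (n + 1) ∨
      ((((KK n : ℝ) ≤ w ∧ (KK (n + 1) : ℝ) ≤ w) ∧
        ∃ r r' : ℕ, r.Prime ∧ r'.Prime ∧ r ∣ n ∧ r' ∣ n + 1 ∧ (N : ℝ) ^ (1 + σ) < r * r') ∨
      (((N : ℝ) ^ (1 - σ) < n ∧ ((KK n : ℝ) ≤ w ∧ (KK (n + 1) : ℝ) ≤ w) ∧
        (¬ ∃ r r' : ℕ, r.Prime ∧ r'.Prime ∧ r ∣ n ∧ r' ∣ n + 1 ∧ (N : ℝ) ^ (1 + σ) < r * r') ∧
        ∃ r : ℕ, r.Prime ∧ r ∣ n ∧ n ≤ cc N ^ 2 * r) ∨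
      (((N : ℝ) ^ (1 - σ) < n ∧ ((KK n : ℝ) ≤ w ∧ (KK (n + 1) : ℝ) ≤ w) ∧
        (¬ ∃ r r' : ℕ, r.Prime ∧ r'.Prime ∧ r ∣ n ∧ r' ∣ n + 1 ∧ (N : ℝ) ^ (1 + σ) < r * r') ∧
        ∃ r : ℕ, r.Prime ∧ r ∣ n + 1 ∧ n + 1 ≤ cc N ^ 2 * r) ∨
      (∃ a b : ℕ, a ∣ n ∧ b ∣ n + 1 ∧ Squarefree a ∧ Squarefree b ∧
        ((a * b : ℕ) : ℝ) ≤ (N : ℝ) ^ (1 + σ) ∧
        (N : ℝ) ^ (ε / 3528) ≤ ((Nat.gcd (U a) (ro y (U b)) : ℕ) : ℝ))))))) := by
    intro n hn
    obtain ⟨hn1, hnN, hφ, hexc⟩ := hS n hn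
    by_cases c1 : (n : ℝ) ≤ (N : ℝ) ^ (1 - σ)
    · exact Or.inl c1
    push Not at c1
    by_cases c2 : w < KK n
    · exact Or.inr (Or.inl c2)
    push Not at c2
    by_cases c3 : w < KK (n + 1)
    · exact Or.inr (Or.inr (Or.inl c3))
    push Not at c3
    by_cases c4 : ∃ r r' : ℕ, r.Prime ∧ r'.Prime ∧ r ∣ n ∧ r' ∣ n + 1 ∧
        (N : ℝ) ^ (1 + σ) < r * r'
    · exact Or.inr (Or.inr (Or.inr (Or.inl ⟨⟨c2, c3⟩, c4⟩)))
    rcases cover hn1 hnN hc1 (by norm_num : 1 ≤ 42) hc2 hc3 hX hw0 hz0 hRle hφ (y := y) with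
      h | h | h | h | h | h | h
    · exact absurd h (not_lt.2 c2)
    · exact absurd h (not_lt.2 c3)
    · exact absurd (hR y n hnN c1 c2 h) hexc
    · exact absurd h c4
    · exact Or.inr (Or.inr (Or.inr (Or.inr (Or.inl ⟨c1, ⟨c2, c3⟩, c4, h⟩))))
    · exact Or.inr (Or.inr (Or.inr (Or.inr (Or.inr (Or.inl ⟨c1, ⟨c2, c3⟩, c4, h⟩)))))
    · exact Or.inr (Or.inr (Or.inr (Or.inr (Or.inr (Or.inr h)))))
  have hmain := bound_or (B1 := (N : ℝ) ^ (1 - σ / 8)) (B2 := 13 * (N : ℝ) ^ (1 - σ / 8)) hcov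
    (fun T hT hP => (small_count (by positivity) T fun n hn =>
      ⟨(hS n (hT hn)).1, hP n hn⟩).trans hB2)
    (fun T hT hP => by
      have := bound_or (B1 := 2 * (N : ℝ) ^ (1 - σ / 8)) (B2 := 11 * (N : ℝ) ^ (1 - σ / 8)) hP
        (fun T' hT' hP' => by
          have h3 := squareful_count N w hw1 T' fun n hn =>
            ⟨(hS n (hT (hT' hn))).1, (hS n (hT (hT' hn))).2.1, hP' n hn⟩
          refine h3.trans ?_
          rw [mul_div_assoc]
          linarith)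
        (fun T' hT' hP' => by
          have := bound_or (B1 := 4 * (N : ℝ) ^ (1 - σ / 8)) (B2 := 7 * (N : ℝ) ^ (1 - σ / 8)) hP'
            (fun T2 hT2 hP2 => by
              have h3 := squareful_count (N + 1) w hw1 (T2.image Nat.succ) (by
                intro n hn
                obtain ⟨m, hm, rfl⟩ := Finset.mem_image.1 hn
                have := (hS m (hT (hT' (hT2 hm)))).2.1
                exact ⟨Nat.succ_pos m, Nat.succ_le_succ this, hP2 m hm⟩)
              rw [Finset.card_image_of_injective _ Nat.succ_injective] at h3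
              refine h3.trans ?_
              push_cast
              rw [mul_div_assoc]
              have h4 : ((N : ℝ) + 1) / Real.sqrt w ≤ 2 * (N / Real.sqrt w) := by
                rw [← mul_div_assoc]
                gcongr
                linarith
              linarith)
            (fun T2 hT2 hP2 => by
              have := bound_or (B1 := (N : ℝ) ^ (1 - σ / 8)) (B2 := 6 * (N : ℝ) ^ (1 - σ / 8)) hP2
                (fun T3 hT3 hP3 => (hD T3 fun n hn => by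
                  have h4 := hS n (hT (hT' (hT2 (hT3 hn))))
                  exact ⟨h4.1, h4.2.1, h4.2.2.1, (hP3 n hn).1.1, (hP3 n hn).1.2,
                    (hP3 n hn).2⟩).trans hB)
                (fun T3 hT3 hP3 => by
                  have := bound_or (B1 := (N : ℝ) ^ (1 - σ / 8))
                    (B2 := 5 * (N : ℝ) ^ (1 - σ / 8)) hP3
                    (fun T4 hT4 hP4 => (hE T4 fun n hn => by
                      have h4 := hS n (hT (hT' (hT2 (hT3 (hT4 hn)))))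
                      obtain ⟨q1, q2, q3, q4⟩ := hP4 n hn
                      exact ⟨h4.1, h4.2.1, h4.2.2.1, q1, q2.1, q2.2, q3, q4⟩).trans hB)
                    (fun T4 hT4 hP4 => by
                      have := bound_or (B1 := (N : ℝ) ^ (1 - σ / 8))
                        (B2 := (N : ℝ) ^ (1 - σ / 8)) hP4
                        (fun T5 hT5 hP5 => (hF T5 fun n hn => by
                          have h4 := hS n (hT (hT' (hT2 (hT3 (hT4 (hT5 hn))))))
                          obtain ⟨q1, q2, q3, q4⟩ := hP5 n hn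
                          exact ⟨h4.1, h4.2.1, h4.2.2.1, q1, q2.1, q2.2, q3, q4⟩).trans hB)
                        (fun T5 hT5 hP5 => hG y hy T5 fun n hn => by
                          have h4 := hS n (hT (hT' (hT2 (hT3 (hT4 (hT5 hn))))))
                          exact ⟨h4.1, h4.2.1, hP5 n hn⟩)
                      have hpos : 0 ≤ (N : ℝ) ^ (1 - σ / 8) := by positivity
                      linarith)
                  linarith)
              linarith)
          linarith)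
      linarith)
  linarith

/-! ### The final calculus -/

theorem tendsto_log_nat : Filter.Tendsto (fun N : ℕ => Real.log N) Filter.atTop Filter.atTop :=
  Real.tendsto_log_atTop.comp tendsto_natCast_atTop_atTop

theorem log_le_mul {c : ℝ} (hc : 0 < c) : ∀ᶠ x : ℝ in Filter.atTop, Real.log x ≤ c * x := by
  have h := Real.isLittleO_log_id_atTop.bound hc
  filter_upwards [h, Filter.eventually_ge_atTop 1] with x hx h1
  rw [Real.norm_eq_abs, Real.norm_eq_abs, id, abs_of_nonneg (Real.log_nonneg h1),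
    abs_of_nonneg (by linarith : (0 : ℝ) ≤ x)] at hx
  exact hx

theorem main (ε : ℝ) (hε : 0 < ε) : ∀ᶠ N : ℕ in Filter.atTop,
    (((Finset.Icc 1 N).filter (fun n => φ n = φ (n + 1))).card : ℝ) ≤
      N * Real.exp (-((1 - ε) * Real.log N * Real.log (Real.log (Real.log N)) /
        Real.log (Real.log N))) := by
  classical
  set ε1 := min ε 1 / 10 with hε1d
  have hε1 : 0 < ε1 := by
    have : 0 < min ε 1 := lt_min hε one_pos
    positivity
  have hε1' : ε1 ≤ 1 / 10 := by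
    have : min ε 1 ≤ 1 := min_le_right _ _
    linarith
  have hε1ε : 10 * ε1 ≤ ε := by
    have : min ε 1 ≤ ε := min_le_left _ _
    linarith
  set σ := ε1 ^ 2 / 30000 with hσ
  have hσ0 : 0 < σ := by positivity
  -- eventual facts
  have t1 := tendsto_log_nat
  have t2 : Filter.Tendsto (fun N : ℕ => Real.log (Real.log N)) Filter.atTop Filter.atTop :=
    Real.tendsto_log_atTop.comp t1
  have t3 : Filter.Tendsto (fun N : ℕ => Real.log (Real.log (Real.log N))) Filter.atTop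
    Filter.atTop := Real.tendsto_log_atTop.comp t2
  have e1 := t3.eventually_ge_atTop 1
  have e2 := t2.eventually (log_le_mul (c := σ / 16) (by positivity))
  have e3 := t1.eventually (log_le_mul (c := ε / 4) (by positivity))
  have e4 := t1.eventually_ge_atTop (64 / σ)
  have e5 := t2.eventually_ge_atTop 1
  have e6 : ∀ᶠ N : ℕ in Filter.atTop, 2 ≤ (Real.log N) ^ ε1 :=
    ((tendsto_rpow_atTop hε1).comp t1).eventually_ge_atTop 2
  have e7 := t1.eventually_ge_atTop 3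
  filter_upwards [power_part hε1 hε1' hσ, exc_count hε1 hε1', e1, e2, e3, e4, e5, e6, e7,
    Filter.eventually_ge_atTop 3] with N hP hE e1 e2 e3 e4 e5 e6 e7 hN
  have hN1 : (1 : ℝ) ≤ N := by
    have : 1 ≤ N := by omega
    exact_mod_cast this
  have hN0 : (0 : ℝ) < N := by linarith
  set L := Real.log N with hL
  set l2 := Real.log L with hl2
  set l3 := Real.log l2 with hl3
  have hL0 : 0 < L := by linarith
  have hl20 : 0 < l2 := by linarith
  -- choice of y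
  set y := ⌈L ^ (1 + ε1)⌉₊ with hy
  have hy1 : L ^ (1 + ε1) ≤ y := Nat.le_ceil _
  have hLpow : L ≤ L ^ (1 + ε1) := by
    nth_rewrite 1 [← Real.rpow_one L]
    exact Real.rpow_le_rpow_of_exponent_le (by linarith) (by linarith)
  have hy3 : 3 ≤ y := by
    have : (3 : ℝ) ≤ y := by linarith
    exact_mod_cast this
  have hy2 : (y : ℝ) ≤ L ^ (1 + 2 * ε1) := by
    have h1 := Nat.ceil_lt_add_one (a := L ^ (1 + ε1)) (by positivity)
    have h2 : L ^ (1 + 2 * ε1) = L ^ (1 + ε1) * L ^ ε1 := by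
      rw [← Real.rpow_add hL0]
      ring_nf
    rw [h2]
    nlinarith
  have hb := bound_or (S := (Finset.Icc 1 N).filter (fun n => φ n = φ (n + 1)))
    (P := fun n => (N : ℝ) ^ (1 - 2 * ε1) ≤ (sm y (U n) : ℝ))
    (Q := fun n => ¬ ((N : ℝ) ^ (1 - 2 * ε1) ≤ (sm y (U n) : ℝ)))
    (fun n _ => em _)
    (fun T hT hPT => hE y hy3 hy2 T fun n hn => by
      have h1 := Finset.mem_filter.1 (hT hn)
      rw [Finset.mem_Icc] at h1
      exact ⟨h1.1.1, h1.1.2, hPT n hn⟩)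
    (fun T hT hPT => hP y hy1 T fun n hn => by
      have h1 := Finset.mem_filter.1 (hT hn)
      rw [Finset.mem_Icc] at h1
      exact ⟨h1.1.1, h1.1.2, h1.2, hPT n hn⟩)
  refine hb.trans ?_
  -- comparison
  set E := L * l3 / l2 with hE'
  have hE1 : (1 - ε) * L * l3 / l2 = (1 - ε) * E := by rw [hE']; ring
  have hE2 : (1 - 6 * ε1) * L * l3 / l2 = (1 - 6 * ε1) * E := by rw [hE']; ring
  rw [hE1, hE2]
  have hEge : 4 / ε ≤ E := by
    rw [hE', div_le_div_iff₀ hε hl20]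
    have h1 : l2 ≤ ε / 4 * L := e3
    have h2 : L ≤ L * l3 := le_mul_of_one_le_right hL0.le e1
    nlinarith
  have hE0 : 0 < E := lt_of_lt_of_le (by positivity) hEge
  have hEle : E ≤ σ / 16 * L := by
    rw [hE', div_le_iff₀ hl20]
    calc L * l3 ≤ L * (σ / 16 * l2) := mul_le_mul_of_nonneg_left e2 hL0.le
      _ = σ / 16 * L * l2 := by ring
  -- first part
  have hA : Real.exp (-((1 - 6 * ε1) * E)) ≤ Real.exp (-((1 - ε) * E)) / 2 := by
    have h1 : -((1 - 6 * ε1) * E) ≤ -((1 - ε) * E) - 1 := by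
      have h2 : 4 ≤ ε * E := by
        rw [div_le_iff₀ hε] at hEge
        linarith
      nlinarith
    calc Real.exp (-((1 - 6 * ε1) * E)) ≤ Real.exp (-((1 - ε) * E) - 1) := Real.exp_le_exp.2 h1
      _ = Real.exp (-((1 - ε) * E)) / Real.exp 1 := Real.exp_sub _ _
      _ ≤ Real.exp (-((1 - ε) * E)) / 2 := by
          apply div_le_div_of_nonneg_left (Real.exp_pos _).le (by norm_num)
          have := Real.add_one_le_exp (1 : ℝ)
          linarith
  have hB : 14 * (N : ℝ) ^ (1 - σ / 8) ≤ N * (Real.exp (-((1 - ε) * E)) / 2) := by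
    have h1 : (N : ℝ) ^ (1 - σ / 8) = N * Real.exp (-(σ / 8 * L)) := by
      rw [Real.rpow_sub hN0, Real.rpow_one, Real.rpow_def_of_pos hN0, ← hL, Real.exp_neg]
      rw [mul_comm L]
      rfl
    rw [h1]
    have h2 : Real.exp (-(σ / 8 * L)) ≤ Real.exp (-((1 - ε) * E)) * Real.exp (-4) := by
      rw [← Real.exp_add]
      apply Real.exp_le_exp.2
      have h3 : 64 ≤ σ * L := by
        rw [div_le_iff₀ hσ0] at e4
        linarith
      nlinarith
    have h4 : Real.exp (-4) ≤ 1 / 28 := by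
      rw [Real.exp_neg, ← one_div]
      apply one_div_le_one_div_of_le (by norm_num)
      have h5 : (2.7 : ℝ) < Real.exp 1 := by
        have := Real.exp_one_gt_d9
        linarith
      have h6 : Real.exp 4 = Real.exp 1 ^ 4 := by
        rw [← Real.exp_nat_mul]
        norm_num
      rw [h6]
      calc (28 : ℝ) ≤ 2.7 ^ 4 := by norm_num
        _ ≤ _ := pow_le_pow_left₀ (by norm_num) h5.le 4
    have h7 := Real.exp_pos (-((1 - ε) * E))
    calc 14 * (N * Real.exp (-(σ / 8 * L)))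
        ≤ 14 * (N * (Real.exp (-((1 - ε) * E)) * (1 / 28))) := by
          gcongr
          exact h2.trans (mul_le_mul_of_nonneg_left h4 h7.le)
      _ = N * (Real.exp (-((1 - ε) * E)) / 2) := by ring
  calc N * Real.exp (-((1 - 6 * ε1) * E)) + 14 * (N : ℝ) ^ (1 - σ / 8)
      ≤ N * (Real.exp (-((1 - ε) * E)) / 2) + N * (Real.exp (-((1 - ε) * E)) / 2) :=
        add_le_add (mul_le_mul_of_nonneg_left hA hN0.le) hB
    _ = N * Real.exp (-((1 - ε) * E)) := by ring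

end Pool.Agent.TN
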