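import Pool.Agent.Helper9.TN.Mods

/-!
# TN-10: assembly
-/

set_option autoImplicit false

open Finset
open scoped Nat

namespace Pool.Agent.TN

/-! ### Numerical facts -/

theorem log_pow_le (C : ℝ) {a : ℝ} (ha : 0 < a) :
    ∀ᶠ N : ℕ in Filter.atTop, (Real.log N) ^ C ≤ (N : ℝ) ^ a := by
  have h := isLittleO_log_rpow_rpow_atTop C ha
  have h3 : ∀ᶠ N : ℕ in Filter.atTop, ‖(Real.log (N : ℝ)) ^ C‖ ≤ 1 * ‖(N : ℝ) ^ a‖ :=
    tendsto_natCast_atTop_atTop.eventually (h.bound (c := 1) one_pos)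
  filter_upwards [h3] with N hN
  rw [one_mul, Real.norm_eq_abs, Real.norm_eq_abs, abs_of_nonneg (a := (N : ℝ) ^ a)
    (Real.rpow_nonneg (Nat.cast_nonneg N) a)] at hN
  exact (le_abs_self _).trans hN

theorem const_le_pow (C : ℝ) {a : ℝ} (ha : 0 < a) :
    ∀ᶠ N : ℕ in Filter.atTop, C ≤ (N : ℝ) ^ a :=
  ((tendsto_rpow_atTop ha).comp tendsto_natCast_atTop_atTop).eventually_ge_atTop C

theorem log_add_le {a : ℝ} (ha : 0 < a) (A B : ℝ) :
    ∀ᶠ N : ℕ in Filter.atTop, A + B * Real.log N ≤ (N : ℝ) ^ a := by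
  have h1 := log_pow_le 1 (a := a / 4) (by positivity)
  have h2 := const_le_pow (2 * |A|) ha
  have h3 := const_le_pow (2 * |B|) (a := a / 2) (by positivity)
  filter_upwards [h1, h2, h3, Filter.eventually_ge_atTop 1] with N h1 h2 h3 hN
  have hN1 : (1 : ℝ) ≤ N := by exact_mod_cast hN
  have hlog : 0 ≤ Real.log N := Real.log_nonneg hN1
  rw [Real.rpow_one] at h1
  have h4 : (N : ℝ) ^ (a / 4) ≤ (N : ℝ) ^ (a / 2) :=
    Real.rpow_le_rpow_of_exponent_le hN1 (by linarith)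
  have h5 : B * Real.log N ≤ |B| * (N : ℝ) ^ (a / 2) :=
    (mul_le_mul_of_nonneg_right (le_abs_self B) hlog).trans
      (mul_le_mul_of_nonneg_left (h1.trans h4) (abs_nonneg B))
  have h6 : |B| * (N : ℝ) ^ (a / 2) ≤ (N : ℝ) ^ a / 2 := by
    have : (N : ℝ) ^ a = (N : ℝ) ^ (a / 2) * (N : ℝ) ^ (a / 2) := by
      rw [← Real.rpow_add (by linarith)]
      ring_nf
    rw [this]
    have hp : 0 ≤ (N : ℝ) ^ (a / 2) := by positivity
    nlinarith
  have h7 := le_abs_self A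
  linarith

/-! ### Union bounds -/

theorem bound_or {S : Finset ℕ} {P Q : ℕ → Prop} {B1 B2 : ℝ} (h : ∀ n ∈ S, P n ∨ Q n)
    (h1 : ∀ T ⊆ S, (∀ n ∈ T, P n) → (T.card : ℝ) ≤ B1)
    (h2 : ∀ T ⊆ S, (∀ n ∈ T, Q n) → (T.card : ℝ) ≤ B2) : (S.card : ℝ) ≤ B1 + B2 := by
  classical
  have hsub : S ⊆ S.filter P ∪ S.filter Q := by
    intro n hn
    rw [Finset.mem_union, Finset.mem_filter, Finset.mem_filter]
    rcases h n hn with h | h
    · exact Or.inl ⟨hn, h⟩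
    · exact Or.inr ⟨hn, h⟩
  have h3 := h1 (S.filter P) (Finset.filter_subset _ _) fun n hn => (Finset.mem_filter.1 hn).2
  have h4 := h2 (S.filter Q) (Finset.filter_subset _ _) fun n hn => (Finset.mem_filter.1 hn).2
  have h5 : (S.card : ℝ) ≤ ((S.filter P).card : ℝ) + ((S.filter Q).card : ℝ) := by
    exact_mod_cast (Finset.card_le_card hsub).trans (Finset.card_union_le _ _)
  linarith

theorem small_count {B : ℝ} (hB : 0 ≤ B) (S : Finset ℕ) (hS : ∀ n ∈ S, 1 ≤ n ∧ (n : ℝ) ≤ B) :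
    (S.card : ℝ) ≤ B := by
  have hsub : S ⊆ Finset.Icc 1 ⌊B⌋₊ := by
    intro n hn
    rw [Finset.mem_Icc]
    exact ⟨(hS n hn).1, Nat.le_floor (hS n hn).2⟩
  have := Finset.card_le_card hsub
  rw [Nat.card_Icc, Nat.add_sub_cancel] at this
  calc (S.card : ℝ) ≤ (⌊B⌋₊ : ℝ) := by exact_mod_cast this
    _ ≤ B := Nat.floor_le hB

/-! ### The base `c` -/

/-- `c = ⌊N ^ (1 / 40)⌋` -/
noncomputable def cc (N : ℕ) : ℕ := ⌊(N : ℝ) ^ (1 / 40 : ℝ)⌋₊

theorem cc_facts : ∀ᶠ N : ℕ in Filter.atTop, 1 ≤ cc N ∧ N + 1 ≤ cc N ^ 42 ∧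
    cc N ^ 4 ≤ N + 1 ∧ ((cc N : ℝ)) ^ 2 ≤ (N : ℝ) ^ (1 / 20 : ℝ) := by
  have h1 := const_le_pow (2 ^ 43) (a := 1 / 20) (by norm_num)
  have h2 := const_le_pow 2 (a := 1 / 40) (by norm_num)
  filter_upwards [h1, h2, Filter.eventually_ge_atTop 1] with N h1 h2 hN
  have hN1 : (1 : ℝ) ≤ N := by exact_mod_cast hN
  set t := (N : ℝ) ^ (1 / 40 : ℝ) with ht
  have ht0 : 0 ≤ t := by positivity
  have htc : (cc N : ℝ) ≤ t := Nat.floor_le ht0
  have htc2 : t / 2 ≤ cc N := by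
    have := Nat.lt_floor_add_one t
    have h3 : (cc N : ℝ) = ⌊t⌋₊ := rfl
    rw [h3]
    linarith
  have ht40 : t ^ 40 = N := by
    rw [ht, ← Real.rpow_natCast, ← Real.rpow_mul (by positivity)]
    norm_num
  have ht2 : t ^ 2 = (N : ℝ) ^ (1 / 20 : ℝ) := by
    rw [ht, ← Real.rpow_natCast, ← Real.rpow_mul (by positivity)]
    norm_num
  refine ⟨Nat.le_floor (by push_cast; linarith), ?_, ?_, ?_⟩
  · have h4 : (N : ℝ) + 1 ≤ (cc N : ℝ) ^ 42 := by
      calc (N : ℝ) + 1 ≤ 2 * N := by linarith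
        _ ≤ (N : ℝ) ^ (1 / 20 : ℝ) * N / 2 ^ 42 := by
            rw [le_div_iff₀ (by positivity)]
            have := mul_le_mul_of_nonneg_right h1 (by linarith : (0 : ℝ) ≤ N)
            calc 2 * (N : ℝ) * 2 ^ 42 = 2 ^ 43 * N := by ring
              _ ≤ _ := this
        _ = (t / 2) ^ 42 := by
            rw [← ht2]
            conv_lhs => rw [← ht40]
            ring
        _ ≤ (cc N : ℝ) ^ 42 := pow_le_pow_left₀ (by positivity) htc2 42
    exact_mod_cast h4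
  · have h4 : (cc N : ℝ) ^ 4 ≤ (N : ℝ) + 1 := by
      have ht1 : 1 ≤ t := by linarith
      calc (cc N : ℝ) ^ 4 ≤ t ^ 4 := pow_le_pow_left₀ (by positivity) htc 4
        _ ≤ t ^ 40 := pow_le_pow_right₀ ht1 (by norm_num)
        _ = N := ht40
        _ ≤ (N : ℝ) + 1 := by linarith
    exact_mod_cast h4
  · rw [← ht2]
    exact pow_le_pow_left₀ (by positivity) htc 2

end Pool.Agent.TN
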