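import Pool.Agent.Helper9.TN.Select

/-!
# TN-10a: the case distinction
-/

set_option autoImplicit false

open Finset
open scoped Nat

namespace Pool.Agent.TN

theorem rad_squarefree (n : ℕ) : Squarefree (∏ r ∈ n.primeFactors, r) := by
  refine Finset.squarefree_prod_of_pairwise_isCoprime (fun p hp q hq hpq => ?_)
    fun p hp => (Nat.prime_of_mem_primeFactors hp).squarefree
  rw [Function.onFun, ← Nat.coprime_iff_isRelPrime]
  exact (Nat.coprime_primes (Nat.prime_of_mem_primeFactors hp)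
    (Nat.prime_of_mem_primeFactors hq)).2 hpq

theorem U_rad (n : ℕ) : U (∏ r ∈ n.primeFactors, r) = U n := by
  unfold U
  rw [Nat.primeFactors_prod fun p hp => Nat.prime_of_mem_primeFactors hp]

theorem gcd_U_mul_le (v : ℕ) (a b : ℕ) (h : Squarefree (a * b)) :
    Nat.gcd (U (a * b)) v ≤ Nat.gcd (U a) v * Nat.gcd (U b) v := by
  rw [U_mul (Nat.coprime_of_squarefree_mul h)]
  apply Nat.le_of_dvd
  · exact Nat.mul_pos (Nat.gcd_pos_of_pos_left _ (U_pos a)) (Nat.gcd_pos_of_pos_left _ (U_pos b))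
  · rw [Nat.gcd_comm (U a * U b), Nat.gcd_comm (U a), Nat.gcd_comm (U b)]
    exact Nat.gcd_mul_right_dvd_mul_gcd v (U a) (U b)

/-- lower bound for the common rough part -/
theorem rough_le {n y : ℕ} (hn : 1 ≤ n) (hφ : φ n = φ (n + 1)) :
    ro y (φ n) ≤ Nat.gcd (U n) (ro y (U (n + 1))) * (KK n * KK (n + 1)) := by
  have h1 := totient_eq (n := n) (by omega)
  have h2 := totient_eq (n := n + 1) (by omega)
  have hk1 := KK_pos (n := n) (by omega)
  have hk2 := KK_pos (n := n + 1) (by omega)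
  have e1 : ro y (φ n) = ro y (U n) * ro y (KK n) := by
    rw [h1, ro_mul (U_pos n).ne' hk1.ne']
  have e2 : ro y (φ n) = ro y (U (n + 1)) * ro y (KK (n + 1)) := by
    rw [hφ, h2, ro_mul (U_pos _).ne' hk2.ne']
  have d1 : ro y (KK n) ∣ KK n := ro_dvd hk1.ne'
  have d2 : ro y (KK (n + 1)) ∣ KK (n + 1) := ro_dvd hk2.ne'
  apply Nat.le_of_dvd
  · exact Nat.mul_pos (Nat.gcd_pos_of_pos_left _ (U_pos n)) (Nat.mul_pos hk1 hk2)
  · rw [← Nat.gcd_mul_right]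
    apply Nat.dvd_gcd
    · rw [e1]
      exact mul_dvd_mul (ro_dvd (U_pos n).ne') (d1.mul_right _)
    · rw [e2]
      exact mul_dvd_mul dvd_rfl (d2.mul_left _)

theorem cover {n N y c K : ℕ} {w R X z : ℝ} (hn : 1 ≤ n) (hnN : n ≤ N) (hc : 1 ≤ c)
    (hK : 1 ≤ K) (hcK : N + 1 ≤ c ^ K) (hc4 : c ^ 4 ≤ N + 1) (hX : (N : ℝ) + 1 ≤ X)
    (hw : 0 ≤ w) (hz : 0 ≤ z) (hR : w ^ 2 * z ^ (K * K) ≤ R) (hφ : φ n = φ (n + 1)) :
    w < KK n ∨ w < KK (n + 1) ∨ (ro y (φ n) : ℝ) < R ∨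
    (∃ r r' : ℕ, r.Prime ∧ r'.Prime ∧ r ∣ n ∧ r' ∣ n + 1 ∧ X < r * r') ∨
    (∃ r : ℕ, r.Prime ∧ r ∣ n ∧ n ≤ c ^ 2 * r) ∨
    (∃ r : ℕ, r.Prime ∧ r ∣ n + 1 ∧ n + 1 ≤ c ^ 2 * r) ∨
    (∃ a b : ℕ, a ∣ n ∧ b ∣ n + 1 ∧ Squarefree a ∧ Squarefree b ∧ ((a * b : ℕ) : ℝ) ≤ X ∧
      z ≤ ((Nat.gcd (U a) (ro y (U b)) : ℕ) : ℝ)) := by
  by_contra hcon
  push Not at hcon
  obtain ⟨hA, hB, hC, hD, hE, hF, hG⟩ := hcon
  set v := ro y (U (n + 1)) with hv
  -- first selection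
  obtain ⟨a, ha1, ha2, ha3⟩ := exists_dvd_select c hc (fun a => Nat.gcd (U a) v)
    (fun a => Nat.gcd_pos_of_pos_left _ (U_pos a)) (gcd_U_mul_le v) K
    (∏ r ∈ n.primeFactors, r) hK (rad_squarefree n)
    ((Nat.le_of_dvd hn (Nat.prod_primeFactors_dvd n)).trans (by omega))
  simp only [U_rad] at ha3
  set v2 := Nat.gcd (U a) v with hv2
  have hv20 : 0 < v2 := Nat.gcd_pos_of_pos_left _ (U_pos a)
  obtain ⟨b, hb1, hb2, hb3⟩ := exists_dvd_select c hc (fun b => Nat.gcd (U b) v2)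
    (fun b => Nat.gcd_pos_of_pos_left _ (U_pos b)) (gcd_U_mul_le v2) K
    (∏ r ∈ (n + 1).primeFactors, r) hK (rad_squarefree (n + 1))
    ((Nat.le_of_dvd (by omega) (Nat.prod_primeFactors_dvd (n + 1))).trans (by omega))
  simp only [U_rad] at hb3
  have hv2d : v2 ∣ U (n + 1) := (Nat.gcd_dvd_right _ _).trans (ro_dvd (U_pos _).ne')
  rw [Nat.gcd_eq_right hv2d] at hb3
  have han : a ∣ n := ha1.trans (Nat.prod_primeFactors_dvd n)
  have hbn : b ∣ n + 1 := hb1.trans (Nat.prod_primeFactors_dvd (n + 1))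
  have hsa : Squarefree a := (rad_squarefree n).squarefree_of_dvd ha1
  have hsb : Squarefree b := (rad_squarefree (n + 1)).squarefree_of_dvd hb1
  -- the product
  have hab : ((a * b : ℕ) : ℝ) ≤ X := by
    rcases ha2 with ha2 | ha2 <;> rcases hb2 with hb2 | hb2
    · have := hD a b ha2 hb2 han hbn
      push_cast
      exact this
    · have h1 := hE a ha2 han
      have h2 : a * b ≤ N + 1 := by
        calc a * b ≤ a * c ^ 2 := Nat.mul_le_mul_left _ hb2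
          _ = c ^ 2 * a := mul_comm _ _
          _ ≤ N + 1 := by omega
      exact le_trans (by exact_mod_cast h2) hX
    · have h1 := hF b hb2 hbn
      have h2 : a * b ≤ N + 1 := by
        calc a * b ≤ c ^ 2 * b := Nat.mul_le_mul_right _ ha2
          _ ≤ N + 1 := by omega
      exact le_trans (by exact_mod_cast h2) hX
    · have h2 : a * b ≤ N + 1 := by
        calc a * b ≤ c ^ 2 * c ^ 2 := Nat.mul_le_mul ha2 hb2
          _ = c ^ 4 := by ring
          _ ≤ N + 1 := hc4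
      exact le_trans (by exact_mod_cast h2) hX
  have hg := hG a b han hbn hsa hsb hab
  -- the gcd
  have hdv : Nat.gcd (U b) v2 ∣ Nat.gcd (U a) (ro y (U b)) := by
    apply Nat.dvd_gcd
    · exact (Nat.gcd_dvd_right _ _).trans (Nat.gcd_dvd_left _ _)
    · apply dvd_ro (U_pos b).ne' (Nat.gcd_dvd_left _ _)
      intro p hp hpd
      exact lt_of_dvd_ro hp (hpd.trans ((Nat.gcd_dvd_right _ _).trans (Nat.gcd_dvd_right _ _)))
  have hle : Nat.gcd (U b) v2 ≤ Nat.gcd (U a) (ro y (U b)) :=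
    Nat.le_of_dvd (Nat.gcd_pos_of_pos_left _ (U_pos a)) hdv
  set g := Nat.gcd (U a) (ro y (U b)) with hgdef
  have hchain : Nat.gcd (U n) v ≤ g ^ (K * K) := by
    calc Nat.gcd (U n) v ≤ v2 ^ K := ha3
      _ ≤ (g ^ K) ^ K := Nat.pow_le_pow_left (hb3.trans (Nat.pow_le_pow_left hle K)) K
      _ = g ^ (K * K) := (pow_mul g K K).symm
  have hrough := rough_le (y := y) hn hφ
  have h3 : (ro y (φ n) : ℝ) ≤ (g : ℝ) ^ (K * K) * ((KK n : ℝ) * (KK (n + 1) : ℝ)) := by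
    have : ro y (φ n) ≤ g ^ (K * K) * (KK n * KK (n + 1)) :=
      hrough.trans (Nat.mul_le_mul_right _ hchain)
    exact_mod_cast this
  have h4 : (g : ℝ) ^ (K * K) < z ^ (K * K) :=
    pow_lt_pow_left₀ hg (Nat.cast_nonneg g) (by
      have : 0 < K * K := Nat.mul_pos hK hK
      omega)
  have h5 : (0 : ℝ) < (KK n : ℝ) * (KK (n + 1) : ℝ) := by
    have hk1 := KK_pos (n := n) (by omega)
    have hk2 := KK_pos (n := n + 1) (by omega)
    positivity
  have h6 : (KK n : ℝ) * (KK (n + 1) : ℝ) ≤ w ^ 2 := by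
    rw [sq]
    exact mul_le_mul hA hB (Nat.cast_nonneg _) hw
  have h7 : (ro y (φ n) : ℝ) < R := by
    calc (ro y (φ n) : ℝ) ≤ (g : ℝ) ^ (K * K) * ((KK n : ℝ) * (KK (n + 1) : ℝ)) := h3
      _ < z ^ (K * K) * ((KK n : ℝ) * (KK (n + 1) : ℝ)) := mul_lt_mul_of_pos_right h4 h5
      _ ≤ z ^ (K * K) * w ^ 2 := mul_le_mul_of_nonneg_left h6 (pow_nonneg hz _)
      _ = w ^ 2 * z ^ (K * K) := mul_comm _ _
      _ ≤ R := hR
  exact absurd h7 (not_lt.2 hC)

end Pool.Agent.TN
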