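import Pool.Agent.Helper9.TN.Basic
import Pool.Agent.Helper30.TN.Sieve
import Pool.Agent.Helper51.TN.Mod
import Pool.Agent.Helper51.TN.SmoothSum
import Pool.Agent.Helper51.TN.Exc
import Pool.Agent.Helper78.TN.Rankin

/-!
# Glue: the modules TN-3b, TN-5b, TN-5c without hypotheses
-/

set_option autoImplicit false

open Finset
open scoped Nat

namespace Pool.Agent.TN

theorem sum_inv_primes_mod : ∃ C : ℝ, 0 < C ∧ ∀ (X e : ℕ), 3 ≤ X → 1 ≤ e →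
    ∑ r ∈ (Finset.Icc 1 X).filter (fun r => r.Prime ∧ e ∣ r - 1), (1 / r : ℝ) ≤
      C * (1 + Real.log (Real.log X)) / φ e :=
  sum_inv_primes_mod_of sieve_count

theorem sum_smooth_le : ∃ C : ℝ, 0 < C ∧ ∀ (N y : ℕ) (β : ℝ), 3 ≤ N → 3 ≤ y → 0 ≤ β →
    β ≤ 1 / 4 →
    ∑ r ∈ (Finset.Icc 1 N).filter Nat.Prime, (sm y (r - 1) : ℝ) ^ β / (r - 1) ≤
      C * (1 + Real.log (Real.log N)) *
        Real.exp (C * (y : ℝ) ^ β * (1 + Real.log (Real.log y))) :=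
  sum_smooth_le_of sum_inv_primes_mod

theorem exc_count {ε : ℝ} (hε : 0 < ε) (hε1 : ε ≤ 1 / 10) :
    ∀ᶠ N : ℕ in Filter.atTop, ∀ y : ℕ, 3 ≤ y → (y : ℝ) ≤ (Real.log N) ^ (1 + 2 * ε) →
      ∀ S : Finset ℕ, (∀ n ∈ S, 1 ≤ n ∧ n ≤ N ∧ (N : ℝ) ^ (1 - 2 * ε) ≤ (sm y (U n) : ℝ)) →
      (S.card : ℝ) ≤
        N * Real.exp (-((1 - 6 * ε) * Real.log N * Real.log (Real.log (Real.log N)) /
          Real.log (Real.log N))) :=
  exc_count_of (fun {_ _ _ _} h1 h2 S hS => exc_rankin h1 h2 S hS) sum_smooth_le hε hε1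

end Pool.Agent.TN
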