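import Pool.Agent.Helper9.TN.Cover
import Pool.Agent.Helper9.TN.Glue
import Pool.Agent.Helper9.TN.Good
import Pool.Agent.Helper78.TN.CaseI
import Pool.Agent.Helper10.TN.CaseII
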