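import Pool.Agent.Helper9.TN.Assembly

/-!
# TN-10: the power saving part
-/

set_option autoImplicit false

open Finset
open scoped Nat

namespace Pool.Agent.TN

/-- class 4: two large primes -/
theorem piece_D {σ : ℝ} (hσ : 0 < σ) (hσ1 : σ ≤ 1 / 100) : ∀ᶠ N : ℕ in Filter.atTop,
    ∀ S : Finset ℕ, (∀ n ∈ S, 1 ≤ n ∧ n ≤ N ∧ φ n = φ (n + 1) ∧
      (KK n : ℝ) ≤ (N : ℝ) ^ (σ / 2) ∧ (KK (n + 1) : ℝ) ≤ (N : ℝ) ^ (σ / 2) ∧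
      ∃ r r' : ℕ, r.Prime ∧ r'.Prime ∧ r ∣ n ∧ r' ∣ n + 1 ∧ (N : ℝ) ^ (1 + σ) < r * r') →
    (S.card : ℝ) ≤ (N : ℝ) ^ (1 - σ / 2) := by
  have h1 := const_le_pow 4 (a := σ / 2) (by positivity)
  have h2 := log_add_le (a := σ / 4) (by positivity) 4 2
  filter_upwards [h1, h2, Filter.eventually_ge_atTop 1] with N h1 h2 hN S hS
  have hN1 : (1 : ℝ) ≤ N := by exact_mod_cast hN
  have hN0 : (0 : ℝ) < N := by linarith
  have hlog : 0 ≤ Real.log N := Real.log_nonneg hN1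
  set w := (N : ℝ) ^ (σ / 2) with hw
  have hsplit : (N : ℝ) ^ (1 + σ) = N * w * w := by
    rw [hw, mul_assoc, ← Real.rpow_add hN0]
    nth_rewrite 2 [← Real.rpow_one (N : ℝ)]
    rw [← Real.rpow_add hN0]
    ring_nf
  have hX1 : 1 ≤ 2 * (N : ℝ) ^ (1 - σ) := by
    have : 1 ≤ (N : ℝ) ^ (1 - σ) := Real.one_le_rpow hN1 (by linarith)
    linarith
  have hmain := caseI_count N (2 * (N : ℝ) ^ (1 - σ)) hX1 S (by
    intro n hn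
    obtain ⟨hn1, hnN, hφ, hk1, hk2, r, r', hr, hr', hrn, hrn', hlt⟩ := hS n hn
    have hnNR : (n : ℝ) ≤ N := by exact_mod_cast hnN
    have hrn2 : (r : ℝ) ≤ N := by
      have : r ≤ n := Nat.le_of_dvd (by omega) hrn
      exact le_trans (by exact_mod_cast this) hnNR
    have hrn2' : (r' : ℝ) ≤ N + 1 := by
      have : r' ≤ n + 1 := Nat.le_of_dvd (by omega) hrn'
      have h3 : (r' : ℝ) ≤ (n : ℝ) + 1 := by exact_mod_cast this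
      linarith
    have hr0 : (0 : ℝ) ≤ r := Nat.cast_nonneg r
    have hr0' : (0 : ℝ) ≤ r' := Nat.cast_nonneg r'
    have hw4 : 4 ≤ w := h1
    refine ⟨hn1, hnN, hφ, r, r', hr, hr', hrn, hrn', ?_, ?_, ?_⟩
    · intro hsq
      have h5 : r ∣ KK n := by
        have := pow_dvd_KK (e := 1) hr (by omega) hsq
        rwa [pow_one] at this
      have h6 : (r : ℝ) ≤ w := by
        have : r ≤ KK n := Nat.le_of_dvd (KK_pos (by omega)) h5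
        exact le_trans (by exact_mod_cast this) hk1
      have h7 : (r : ℝ) * r' ≤ w * (N + 1) := mul_le_mul h6 hrn2' hr0' (by linarith)
      rw [hsplit] at hlt
      have e1 : 4 * ((N : ℝ) * w) ≤ w * (N * w) :=
        mul_le_mul_of_nonneg_right hw4 (by positivity)
      have e2 : w * 1 ≤ w * N := mul_le_mul_of_nonneg_left hN1 (by linarith)
      have e3 : 0 ≤ (N : ℝ) * w := by positivity
      nlinarith
    · intro hsq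
      have h5 : r' ∣ KK (n + 1) := by
        have := pow_dvd_KK (e := 1) hr' (by omega) hsq
        rwa [pow_one] at this
      have h6 : (r' : ℝ) ≤ w := by
        have : r' ≤ KK (n + 1) := Nat.le_of_dvd (KK_pos (by omega)) h5
        exact le_trans (by exact_mod_cast this) hk2
      have h7 : (r : ℝ) * r' ≤ N * w := mul_le_mul hrn2 h6 hr0' (by linarith)
      rw [hsplit] at hlt
      have e1 : 4 * ((N : ℝ) * w) ≤ w * (N * w) :=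
        mul_le_mul_of_nonneg_right hw4 (by positivity)
      have e3 : 0 ≤ (N : ℝ) * w := by positivity
      nlinarith
    · have h8 : ((n * (n + 1) : ℕ) : ℝ) ≤ 2 * (N : ℝ) ^ 2 := by
        push_cast
        nlinarith
      have h9 : (N : ℝ) ^ 2 = (N : ℝ) ^ (1 - σ) * (N : ℝ) ^ (1 + σ) := by
        rw [← Real.rpow_add hN0, ← Real.rpow_natCast]
        congr 1
        push_cast
        ring
      calc ((n * (n + 1) : ℕ) : ℝ) ≤ 2 * (N : ℝ) ^ 2 := h8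
        _ = 2 * (N : ℝ) ^ (1 - σ) * (N : ℝ) ^ (1 + σ) := by rw [h9]; ring
        _ ≤ 2 * (N : ℝ) ^ (1 - σ) * (r * r') :=
            mul_le_mul_of_nonneg_left hlt.le (by positivity))
  refine hmain.trans ?_
  have hlog2 : Real.log (2 * (N : ℝ) ^ (1 - σ)) ≤ 1 + Real.log N := by
    rw [Real.log_mul (by norm_num) (by positivity), Real.log_rpow hN0]
    have := Real.log_two_lt_d9
    nlinarith
  calc 2 * (N : ℝ) ^ (1 - σ) * (1 + Real.log (2 * (N : ℝ) ^ (1 - σ)))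
      ≤ 2 * (N : ℝ) ^ (1 - σ) * (1 + (1 + Real.log N)) :=
        mul_le_mul_of_nonneg_left (by linarith) (by positivity)
    _ = (N : ℝ) ^ (1 - σ) * (4 + 2 * Real.log N) := by ring
    _ ≤ (N : ℝ) ^ (1 - σ) * (N : ℝ) ^ (σ / 4) :=
        mul_le_mul_of_nonneg_left h2 (by positivity)
    _ = (N : ℝ) ^ (1 - σ + σ / 4) := (Real.rpow_add hN0 _ _).symm
    _ ≤ (N : ℝ) ^ (1 - σ / 2) := Real.rpow_le_rpow_of_exponent_le hN1 (by linarith)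

/-- classes 5, 6: the number of solutions with one huge prime -/
theorem bound_E {σ : ℝ} (hσ : 0 < σ) (hσ1 : σ ≤ 1 / 100) : ∀ᶠ N : ℕ in Filter.atTop,
    20 * ((cc N : ℝ) ^ 2) ^ 4 * (⌈(N : ℝ) ^ (1 / 20 + 3 * σ)⌉₊ : ℝ) * Real.sqrt N *
      (2 + Real.log N) ^ 2 ≤ (N : ℝ) ^ (1 - σ / 2) := by
  have h1 := const_le_pow 40 (a := 1 / 20) (by norm_num)
  have h2 := log_add_le (a := 1 / 40) (by norm_num) 2 1
  filter_upwards [h1, h2, cc_facts, Filter.eventually_ge_atTop 1] with N h1 h2 h3 hN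
  have hN1 : (1 : ℝ) ≤ N := by exact_mod_cast hN
  have hN0 : (0 : ℝ) < N := by linarith
  have hlog : 0 ≤ Real.log N := Real.log_nonneg hN1
  obtain ⟨-, -, -, hc⟩ := h3
  rw [one_mul] at h2
  have e1 : ((cc N : ℝ) ^ 2) ^ 4 ≤ (N : ℝ) ^ (1 / 5 : ℝ) := by
    calc ((cc N : ℝ) ^ 2) ^ 4 ≤ ((N : ℝ) ^ (1 / 20 : ℝ)) ^ 4 := pow_le_pow_left₀ (by positivity) hc 4
      _ = (N : ℝ) ^ (1 / 5 : ℝ) := by
          rw [← Real.rpow_natCast, ← Real.rpow_mul hN0.le]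
          norm_num
  have e2 : (⌈(N : ℝ) ^ (1 / 20 + 3 * σ)⌉₊ : ℝ) ≤ 2 * (N : ℝ) ^ (1 / 20 + 3 * σ) := by
    have h4 : 1 ≤ (N : ℝ) ^ (1 / 20 + 3 * σ) := Real.one_le_rpow hN1 (by positivity)
    have h5 := Nat.ceil_lt_add_one (a := (N : ℝ) ^ (1 / 20 + 3 * σ)) (by positivity)
    linarith
  have e3 : Real.sqrt N = (N : ℝ) ^ (1 / 2 : ℝ) := Real.sqrt_eq_rpow N
  have e4 : (2 + Real.log N) ^ 2 ≤ (N : ℝ) ^ (1 / 20 : ℝ) := by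
    calc (2 + Real.log N) ^ 2 ≤ ((N : ℝ) ^ (1 / 40 : ℝ)) ^ 2 :=
          pow_le_pow_left₀ (by positivity) h2 2
      _ = (N : ℝ) ^ (1 / 20 : ℝ) := by
          rw [← Real.rpow_natCast, ← Real.rpow_mul hN0.le]
          norm_num
  rw [e3]
  calc 20 * ((cc N : ℝ) ^ 2) ^ 4 * (⌈(N : ℝ) ^ (1 / 20 + 3 * σ)⌉₊ : ℝ) * (N : ℝ) ^ (1 / 2 : ℝ) *
      (2 + Real.log N) ^ 2
      ≤ 20 * (N : ℝ) ^ (1 / 5 : ℝ) * (2 * (N : ℝ) ^ (1 / 20 + 3 * σ)) * (N : ℝ) ^ (1 / 2 : ℝ) *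
        (N : ℝ) ^ (1 / 20 : ℝ) := by gcongr
    _ = 40 * ((N : ℝ) ^ (1 / 5 : ℝ) * (N : ℝ) ^ (1 / 20 + 3 * σ) * (N : ℝ) ^ (1 / 2 : ℝ) *
        (N : ℝ) ^ (1 / 20 : ℝ)) := by ring
    _ ≤ (N : ℝ) ^ (1 / 20 : ℝ) * ((N : ℝ) ^ (1 / 5 : ℝ) * (N : ℝ) ^ (1 / 20 + 3 * σ) *
        (N : ℝ) ^ (1 / 2 : ℝ) * (N : ℝ) ^ (1 / 20 : ℝ)) :=
        mul_le_mul_of_nonneg_right h1 (by positivity)
    _ = (N : ℝ) ^ (1 / 20 + (1 / 5 + (1 / 20 + 3 * σ) + 1 / 2 + 1 / 20)) := by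
        rw [← Real.rpow_add hN0, ← Real.rpow_add hN0, ← Real.rpow_add hN0, ← Real.rpow_add hN0]
    _ ≤ (N : ℝ) ^ (1 - σ / 2) := Real.rpow_le_rpow_of_exponent_le hN1 (by linarith)

/-- bound for the prime powers of the neighbour -/
theorem pow_le_V {σ : ℝ} {N n n2 r p c : ℕ} {X : ℝ} (hN1 : (1 : ℝ) ≤ N)
    (hσ : 0 < σ) (hn2 : n2 ≠ 0) (hnbig : (N : ℝ) ^ (1 - σ) < n) (hc : (c : ℝ) ^ 2 ≤ (N : ℝ) ^ (1 / 20 : ℝ))
    (hKK : (KK n2 : ℝ) ≤ (N : ℝ) ^ (σ / 2)) (hX : X = (N : ℝ) ^ (1 + σ))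
    (hle : (n : ℝ) ≤ (c : ℝ) ^ 2 * r) (hr0 : 0 < r)
    (hD : p ∣ n2 → (p : ℝ) * r ≤ X) (hp : p.Prime) :
    p ^ n2.factorization p ≤ ⌈(N : ℝ) ^ (1 / 20 + 3 * σ)⌉₊ := by
  have hN0 : (0 : ℝ) < N := by linarith
  have hge1 : 1 ≤ (N : ℝ) ^ (1 / 20 + 3 * σ) := Real.one_le_rpow hN1 (by positivity)
  rcases Nat.eq_zero_or_pos (n2.factorization p) with h0 | h0
  · rw [h0, pow_zero]
    exact Nat.one_le_ceil_iff.2 (by linarith)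
  · have hpn : p ∣ n2 := Nat.dvd_of_factorization_pos h0.ne'
    obtain ⟨f, hf⟩ : ∃ f, n2.factorization p = f + 1 := ⟨n2.factorization p - 1, by omega⟩
    have hdiv : p ^ (f + 1) ∣ n2 := by
      rw [← hf]
      exact Nat.ordProj_dvd n2 p
    have h1 : p ^ f ∣ KK n2 := pow_dvd_KK hp hn2 hdiv
    have h2 : ((p ^ f : ℕ) : ℝ) ≤ (N : ℝ) ^ (σ / 2) := by
      have : p ^ f ≤ KK n2 := Nat.le_of_dvd (KK_pos hn2) h1
      exact le_trans (by exact_mod_cast this) hKK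
    have hp0 : (0 : ℝ) ≤ p := Nat.cast_nonneg p
    have hrR : (0 : ℝ) < r := by exact_mod_cast hr0
    have h3 : (p : ℝ) ≤ (N : ℝ) ^ (1 / 20 + 2 * σ) := by
      have h4 : (p : ℝ) * n ≤ (N : ℝ) ^ (1 / 20 : ℝ) * (N : ℝ) ^ (1 + σ) := by
        calc (p : ℝ) * n ≤ p * ((c : ℝ) ^ 2 * r) := mul_le_mul_of_nonneg_left hle hp0
          _ = (c : ℝ) ^ 2 * (p * r) := by ring
          _ ≤ (c : ℝ) ^ 2 * X := mul_le_mul_of_nonneg_left (hD hpn) (by positivity)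
          _ ≤ (N : ℝ) ^ (1 / 20 : ℝ) * (N : ℝ) ^ (1 + σ) := by
              rw [hX]
              exact mul_le_mul_of_nonneg_right hc (by positivity)
      have h5 : (N : ℝ) ^ (1 / 20 : ℝ) * (N : ℝ) ^ (1 + σ) =
          (N : ℝ) ^ (1 / 20 + 2 * σ) * (N : ℝ) ^ (1 - σ) := by
        rw [← Real.rpow_add hN0, ← Real.rpow_add hN0]
        ring_nf
      rw [h5] at h4
      by_contra hcon
      push Not at hcon
      have h6 : (N : ℝ) ^ (1 / 20 + 2 * σ) * (N : ℝ) ^ (1 - σ) < p * n :=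
        mul_lt_mul'' hcon hnbig (by positivity) (by positivity)
      linarith
    have h7 : ((p ^ (f + 1) : ℕ) : ℝ) ≤ (N : ℝ) ^ (1 / 20 + 3 * σ) := by
      rw [pow_succ]
      push_cast at h2 ⊢
      calc (p : ℝ) ^ f * p ≤ (N : ℝ) ^ (σ / 2) * (N : ℝ) ^ (1 / 20 + 2 * σ) :=
            mul_le_mul h2 h3 hp0 (by positivity)
        _ = (N : ℝ) ^ (σ / 2 + (1 / 20 + 2 * σ)) := (Real.rpow_add hN0 _ _).symm
        _ ≤ (N : ℝ) ^ (1 / 20 + 3 * σ) := Real.rpow_le_rpow_of_exponent_le hN1 (by linarith)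
    rw [hf]
    exact_mod_cast h7.trans (Nat.le_ceil _)

/-- a huge prime is not a double prime factor -/
theorem not_sq_dvd {σ : ℝ} {N n n1 r c : ℕ} (hN1 : (1 : ℝ) ≤ N) (hσ : 0 < σ) (hσ1 : σ ≤ 1 / 100)
    (hn1 : n1 ≠ 0) (hnn : (n : ℝ) ≤ n1) (hnbig : (N : ℝ) ^ (1 - σ) < n)
    (hc : (c : ℝ) ^ 2 ≤ (N : ℝ) ^ (1 / 20 : ℝ)) (hKK : (KK n1 : ℝ) ≤ (N : ℝ) ^ (σ / 2))
    (hle : (n1 : ℝ) ≤ (c : ℝ) ^ 2 * r) (hr : r.Prime) : ¬ r ^ 2 ∣ n1 := by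
  intro hsq
  have hN0 : (0 : ℝ) < N := by linarith
  have h5 : r ∣ KK n1 := by
    have := pow_dvd_KK (e := 1) hr hn1 hsq
    rwa [pow_one] at this
  have h6 : (r : ℝ) ≤ (N : ℝ) ^ (σ / 2) := by
    have : r ≤ KK n1 := Nat.le_of_dvd (KK_pos hn1) h5
    exact le_trans (by exact_mod_cast this) hKK
  have h7 : (n1 : ℝ) ≤ (N : ℝ) ^ (1 / 20 : ℝ) * (N : ℝ) ^ (σ / 2) :=
    hle.trans (mul_le_mul hc h6 (Nat.cast_nonneg r) (by positivity))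
  rw [← Real.rpow_add hN0] at h7
  have h8 : (N : ℝ) ^ (1 / 20 + σ / 2) ≤ (N : ℝ) ^ (1 - σ) :=
    Real.rpow_le_rpow_of_exponent_le hN1 (by linarith)
  linarith

theorem lt_sq_of_big {σ : ℝ} {N n : ℕ} (hN1 : (1 : ℝ) ≤ N) (hσ1 : σ ≤ 1 / 100)
    (hnbig : (N : ℝ) ^ (1 - σ) < n) : N < n ^ 2 := by
  have hN0 : (0 : ℝ) < N := by linarith
  have h1 : (N : ℝ) ≤ ((N : ℝ) ^ (1 - σ)) ^ 2 := by
    rw [← Real.rpow_natCast, ← Real.rpow_mul hN0.le]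
    nth_rewrite 1 [← Real.rpow_one (N : ℝ)]
    apply Real.rpow_le_rpow_of_exponent_le hN1
    push_cast
    linarith
  have h2 : ((N : ℝ) ^ (1 - σ)) ^ 2 < (n : ℝ) ^ 2 :=
    pow_lt_pow_left₀ hnbig (by positivity) (by norm_num)
  have h3 : (N : ℝ) < (n : ℝ) ^ 2 := by linarith
  exact_mod_cast h3

theorem piece_E {σ : ℝ} (hσ : 0 < σ) (hσ1 : σ ≤ 1 / 100) : ∀ᶠ N : ℕ in Filter.atTop,
    ∀ S : Finset ℕ, (∀ n ∈ S, 1 ≤ n ∧ n ≤ N ∧ φ n = φ (n + 1) ∧ (N : ℝ) ^ (1 - σ) < n ∧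
      (KK n : ℝ) ≤ (N : ℝ) ^ (σ / 2) ∧ (KK (n + 1) : ℝ) ≤ (N : ℝ) ^ (σ / 2) ∧
      (¬ ∃ r r' : ℕ, r.Prime ∧ r'.Prime ∧ r ∣ n ∧ r' ∣ n + 1 ∧ (N : ℝ) ^ (1 + σ) < r * r') ∧
      ∃ r : ℕ, r.Prime ∧ r ∣ n ∧ n ≤ cc N ^ 2 * r) →
    (S.card : ℝ) ≤ (N : ℝ) ^ (1 - σ / 2) := by
  filter_upwards [bound_E hσ hσ1, cc_facts, Filter.eventually_ge_atTop 1] with N h1 h3 hN S hS
  have hN1 : (1 : ℝ) ≤ N := by exact_mod_cast hN
  obtain ⟨hc1, -, -, hc⟩ := h3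
  have hV1 : 1 ≤ ⌈(N : ℝ) ^ (1 / 20 + 3 * σ)⌉₊ := by
    have : 1 ≤ (N : ℝ) ^ (1 / 20 + 3 * σ) := Real.one_le_rpow hN1 (by positivity)
    exact Nat.one_le_ceil_iff.2 (by linarith)
  have hmain := caseIIa_count N (cc N ^ 2) ⌈(N : ℝ) ^ (1 / 20 + 3 * σ)⌉₊
    (Nat.one_le_pow _ _ hc1) hV1 hN S (by
    intro n hn
    obtain ⟨hn1, hnN, hφ, hbig, hk1, hk2, hD, r, hr, hrn, hle⟩ := hS n hn
    have hleR : (n : ℝ) ≤ (cc N : ℝ) ^ 2 * r := by exact_mod_cast hle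
    refine ⟨hn1, hnN, hφ, lt_sq_of_big hN1 hσ1 hbig, ⟨r, hr, hrn, ?_, hle⟩, ?_⟩
    · exact not_sq_dvd hN1 hσ hσ1 (by omega) le_rfl hbig hc hk1 hleR hr
    · intro p hp
      refine pow_le_V hN1 hσ (by omega) hbig hc hk2 rfl hleR hr.pos ?_ hp
      intro hpn
      by_contra hcon
      push Not at hcon
      exact hD ⟨r, p, hr, hp, hrn, hpn, by linarith [mul_comm (p : ℝ) r]⟩)
  push_cast at hmain
  exact hmain.trans h1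

theorem piece_F {σ : ℝ} (hσ : 0 < σ) (hσ1 : σ ≤ 1 / 100) : ∀ᶠ N : ℕ in Filter.atTop,
    ∀ S : Finset ℕ, (∀ n ∈ S, 1 ≤ n ∧ n ≤ N ∧ φ n = φ (n + 1) ∧ (N : ℝ) ^ (1 - σ) < n ∧
      (KK n : ℝ) ≤ (N : ℝ) ^ (σ / 2) ∧ (KK (n + 1) : ℝ) ≤ (N : ℝ) ^ (σ / 2) ∧
      (¬ ∃ r r' : ℕ, r.Prime ∧ r'.Prime ∧ r ∣ n ∧ r' ∣ n + 1 ∧ (N : ℝ) ^ (1 + σ) < r * r') ∧
      ∃ r : ℕ, r.Prime ∧ r ∣ n + 1 ∧ n + 1 ≤ cc N ^ 2 * r) →
    (S.card : ℝ) ≤ (N : ℝ) ^ (1 - σ / 2) := by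
  have h2 := const_le_pow 2 (a := 1 - σ) (by linarith)
  filter_upwards [bound_E hσ hσ1, cc_facts, h2, Filter.eventually_ge_atTop 1]
    with N h1 h3 h2 hN S hS
  have hN1 : (1 : ℝ) ≤ N := by exact_mod_cast hN
  obtain ⟨hc1, -, -, hc⟩ := h3
  have hV1 : 1 ≤ ⌈(N : ℝ) ^ (1 / 20 + 3 * σ)⌉₊ := by
    have : 1 ≤ (N : ℝ) ^ (1 / 20 + 3 * σ) := Real.one_le_rpow hN1 (by positivity)
    exact Nat.one_le_ceil_iff.2 (by linarith)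
  have hmain := caseIIb_count N (cc N ^ 2) ⌈(N : ℝ) ^ (1 / 20 + 3 * σ)⌉₊
    (Nat.one_le_pow _ _ hc1) hV1 hN S (by
    intro n hn
    obtain ⟨hn1, hnN, hφ, hbig, hk1, hk2, hD, r, hr, hrn, hle⟩ := hS n hn
    have hleR : (((n + 1 : ℕ)) : ℝ) ≤ (cc N : ℝ) ^ 2 * r := by exact_mod_cast hle
    have hn2 : 2 ≤ n := by
      have : (2 : ℝ) < n := by linarith
      exact_mod_cast this.le
    have hnn : (n : ℝ) ≤ ((n + 1 : ℕ) : ℝ) := by push_cast; linarith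
    refine ⟨hn2, hnN, hφ, lt_sq_of_big hN1 hσ1 hbig, ⟨r, hr, hrn, ?_, hle⟩, ?_⟩
    · exact not_sq_dvd hN1 hσ hσ1 (by omega) hnn hbig hc hk2 hleR hr
    · intro p hp
      refine pow_le_V hN1 hσ (by omega) hbig hc hk1 rfl (hnn.trans hleR) hr.pos ?_ hp
      intro hpn
      by_contra hcon
      push Not at hcon
      exact hD ⟨p, r, hp, hr, hpn, hrn, hcon⟩)
  push_cast at hmain
  exact hmain.trans h1

end Pool.Agent.TN
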