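import Pool.Agent.Helper9.TN.Basic

/-!
# TN-8, TN-9: squareful numbers, selection of a divisor
-/

set_option autoImplicit false

open Finset
open scoped Nat

namespace Pool.Agent.TN

/-! ### TN-9 -/

/-- a squarefree number with all prime factors at most `c`, greater than `c ^ 2`, has a divisor
in `(c, c ^ 2]`. -/
theorem exists_dvd_between (c : ℕ) (hc : 1 ≤ c) (m : ℕ)
    (hp : ∀ p, p.Prime → p ∣ m → p ≤ c) (hmc : c ^ 2 < m) :
    ∃ a, a ∣ m ∧ c < a ∧ a ≤ c ^ 2 := by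
  classical
  -- the least divisor greater than c
  have hex : ∃ a, a ∣ m ∧ c < a := ⟨m, dvd_rfl, by nlinarith⟩
  set a := Nat.find hex with ha
  obtain ⟨ham, hca⟩ := Nat.find_spec hex
  refine ⟨a, ham, hca, ?_⟩
  by_contra hcon
  push Not at hcon
  have ha1 : a ≠ 1 := by
    intro h
    rw [h] at hcon
    have := Nat.one_le_pow 2 c hc
    omega
  obtain ⟨p, hpp, hpa⟩ := Nat.exists_prime_and_dvd ha1
  obtain ⟨b, hb⟩ := hpa
  have hpc := hp p hpp ((Dvd.intro b hb.symm).trans ham)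
  have hcb : c < b := by
    by_contra hcb
    push Not at hcb
    have h1 : a ≤ c * c := by
      rw [hb]
      exact Nat.mul_le_mul hpc hcb
    rw [← sq] at h1
    omega
  have hba : b < a := by
    rw [hb]
    have h2 := hpp.two_le
    nlinarith
  exact Nat.find_min hex hba ⟨(Dvd.intro_left p hb.symm).trans ham, hcb⟩

theorem exists_dvd_select (c : ℕ) (hc : 1 ≤ c) (G : ℕ → ℕ) (hG1 : ∀ a, 1 ≤ G a)
    (hG : ∀ a b, Squarefree (a * b) → G (a * b) ≤ G a * G b) (K m : ℕ) (hK : 1 ≤ K)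
    (hm : Squarefree m) (hmc : m ≤ c ^ K) :
    ∃ a, a ∣ m ∧ (a.Prime ∨ a ≤ c ^ 2) ∧ G m ≤ G a ^ K := by
  induction K, hK using Nat.le_induction generalizing m with
  | base =>
    refine ⟨m, dvd_rfl, Or.inr ?_, by simp⟩
    rw [pow_one] at hmc
    nlinarith
  | succ K hK ih =>
    rcases Nat.lt_or_ge (c ^ 2) m with h | h
    · -- choose a divisor greater than c
      obtain ⟨a1, ha1, hca1, hor⟩ : ∃ a, a ∣ m ∧ c < a ∧ (a.Prime ∨ a ≤ c ^ 2) := by
        by_cases hp : ∀ p, p.Prime → p ∣ m → p ≤ c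
        · obtain ⟨a, h1, h2, h3⟩ := exists_dvd_between c hc m hp h
          exact ⟨a, h1, h2, Or.inr h3⟩
        · push Not at hp
          obtain ⟨p, hp1, hp2, hp3⟩ := hp
          exact ⟨p, hp2, hp3, Or.inl hp1⟩
      obtain ⟨m', hm'⟩ := ha1
      have hsq : Squarefree (a1 * m') := hm' ▸ hm
      have hm'c : m' ≤ c ^ K := by
        by_contra hcon
        push Not at hcon
        have : c ^ (K + 1) < m := by
          rw [hm', pow_succ, mul_comm]
          exact Nat.mul_lt_mul'' hca1 hcon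
        omega
      obtain ⟨a2, h1, h2, h3⟩ := ih m' (hsq.squarefree_of_dvd (Dvd.intro_left a1 rfl)) hm'c
      have hGm : G m ≤ G a1 * G a2 ^ K := by
        rw [hm']
        exact (hG a1 m' hsq).trans (Nat.mul_le_mul_left _ h3)
      rcases Nat.le_total (G a1) (G a2) with h4 | h4
      · refine ⟨a2, h1.trans (Dvd.intro_left a1 hm'.symm), h2, hGm.trans ?_⟩
        rw [pow_succ, mul_comm (G a2 ^ K)]
        exact Nat.mul_le_mul_right _ h4
      · refine ⟨a1, Dvd.intro m' hm'.symm, hor, hGm.trans ?_⟩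
        rw [pow_succ, mul_comm (G a1 ^ K)]
        exact Nat.mul_le_mul_left _ (Nat.pow_le_pow_left h4 K)
    · refine ⟨m, dvd_rfl, Or.inr h, ?_⟩
      calc G m = G m ^ 1 := (pow_one _).symm
        _ ≤ G m ^ (K + 1) := Nat.pow_le_pow_right (hG1 m) (by omega)

/-! ### TN-8 -/

theorem sum_inv_sq_tail (b N : ℕ) (hb : 1 ≤ b) :
    ∑ k ∈ Finset.Icc (b + 1) N, (1 / (k : ℝ) ^ 2) ≤ 1 / (b : ℝ) := by
  have h : ∀ N : ℕ, ∑ k ∈ Finset.Icc (b + 1) N, (1 / (k : ℝ) ^ 2) ≤
      1 / (b : ℝ) - 1 / ((max b N : ℕ) : ℝ) := by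
    intro N
    induction N with
    | zero =>
      rw [Finset.Icc_eq_empty (by omega), Finset.sum_empty]
      simp
    | succ N ih =>
      rcases Nat.lt_or_ge N b with h | h
      · rw [Finset.Icc_eq_empty (by omega), Finset.sum_empty, max_eq_left (by omega)]
        simp
      · rw [Finset.sum_Icc_succ_top (by omega), max_eq_right (by omega : b ≤ N + 1)]
        rw [max_eq_right h] at ih
        have hN : (0 : ℝ) < N := by
          have : 1 ≤ N := hb.trans h
          exact_mod_cast this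
        have h2 : (1 : ℝ) / ((N + 1 : ℕ) : ℝ) ^ 2 ≤ 1 / N - 1 / ((N + 1 : ℕ) : ℝ) := by
          push_cast
          rw [div_sub_div _ _ hN.ne' (by positivity), div_le_div_iff₀ (by positivity) (by positivity)]
          nlinarith
        linarith
  have h3 := h N
  have : (0 : ℝ) ≤ 1 / ((max b N : ℕ) : ℝ) := by positivity
  linarith

theorem KK_le_sq {n : ℕ} (hn : n ≠ 0) : ∃ b, b ^ 2 ∣ n ∧ KK n ≤ b ^ 2 := by
  obtain ⟨a, b, hab, ha⟩ := Nat.sq_mul_squarefree n
  refine ⟨b, Dvd.intro a hab, ?_⟩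
  have hb : 0 < b ^ 2 := by
    rcases Nat.eq_zero_or_pos (b ^ 2) with h | h
    · rw [h, zero_mul] at hab
      exact absurd hab.symm hn
    · exact h
  have h1 : a ≤ ∏ r ∈ n.primeFactors, r := by
    rw [← Nat.prod_primeFactors_of_squarefree ha]
    apply Finset.prod_le_prod_of_subset_of_one_le'
    · exact Nat.primeFactors_mono (Dvd.intro_left _ hab) hn
    · intro p hp _
      exact (Nat.prime_of_mem_primeFactors hp).pos
  have h2 := rad_mul_KK n
  have h3 : (∏ r ∈ n.primeFactors, r) * KK n ≤ (∏ r ∈ n.primeFactors, r) * b ^ 2 := by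
    rw [h2]
    calc n = b ^ 2 * a := hab.symm
      _ ≤ b ^ 2 * ∏ r ∈ n.primeFactors, r := Nat.mul_le_mul_left _ h1
      _ = _ := mul_comm _ _
  exact Nat.le_of_mul_le_mul_left h3 (rad_pos n)

theorem squareful_count (N : ℕ) (w : ℝ) (hw : 1 ≤ w) (S : Finset ℕ)
    (hS : ∀ n ∈ S, 1 ≤ n ∧ n ≤ N ∧ w < (KK n : ℝ)) : (S.card : ℝ) ≤ 2 * N / Real.sqrt w := by
  classical
  set B := ⌊Real.sqrt w⌋₊ with hB
  have hsw : 1 ≤ Real.sqrt w := Real.one_le_sqrt.2 hw
  have hB1 : 1 ≤ B := Nat.le_floor (by exact_mod_cast hsw)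
  have hsub : S ⊆ (Finset.Icc (B + 1) N).biUnion fun b =>
      (Finset.Icc 1 N).filter fun n => b ^ 2 ∣ n := by
    intro n hn
    obtain ⟨h1, h2, h3⟩ := hS n hn
    obtain ⟨b, hb, hKb⟩ := KK_le_sq (n := n) (by omega)
    rw [Finset.mem_biUnion]
    have hwb : w < (b : ℝ) ^ 2 := h3.trans_le (by exact_mod_cast hKb)
    have hb2 : Real.sqrt w < b := by
      rw [Real.sqrt_lt' ]
      · exact hwb
      · by_contra hcon
        push Not at hcon
        have : (b : ℝ) = 0 := le_antisymm hcon (Nat.cast_nonneg b)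
        rw [this] at hwb
        norm_num at hwb
        linarith
    refine ⟨b, ?_, ?_⟩
    · rw [Finset.mem_Icc]
      constructor
      · have := (Nat.floor_lt (by positivity)).2 hb2
        omega
      · have h4 : b ^ 2 ≤ n := Nat.le_of_dvd h1 hb
        nlinarith
    · rw [Finset.mem_filter, Finset.mem_Icc]
      exact ⟨⟨h1, h2⟩, hb⟩
  have hcard : ∀ b ∈ Finset.Icc (B + 1) N, ((((Finset.Icc 1 N).filter fun n => b ^ 2 ∣ n).card : ℕ) : ℝ) ≤
      N * (1 / (b : ℝ) ^ 2) := by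
    intro b hb
    rw [Finset.mem_Icc] at hb
    have h5 : ((Finset.Icc 1 N).filter fun n => b ^ 2 ∣ n).card = N / b ^ 2 := by
      have := Nat.Ioc_filter_dvd_card_eq_div N (b ^ 2)
      rw [← this]
      congr 1
    rw [h5]
    calc ((N / b ^ 2 : ℕ) : ℝ) ≤ (N : ℝ) / ((b ^ 2 : ℕ) : ℝ) := Nat.cast_div_le
      _ = N * (1 / (b : ℝ) ^ 2) := by push_cast; ring
  have h6 : (S.card : ℝ) ≤ ∑ b ∈ Finset.Icc (B + 1) N, (N : ℝ) * (1 / (b : ℝ) ^ 2) := by
    calc (S.card : ℝ) ≤ (((Finset.Icc (B + 1) N).biUnion fun b =>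
          (Finset.Icc 1 N).filter fun n => b ^ 2 ∣ n).card : ℕ) := by
          exact_mod_cast Finset.card_le_card hsub
      _ ≤ ((∑ b ∈ Finset.Icc (B + 1) N, ((Finset.Icc 1 N).filter fun n => b ^ 2 ∣ n).card : ℕ) : ℝ) := by
          exact_mod_cast Finset.card_biUnion_le
      _ ≤ _ := by
          rw [Nat.cast_sum]
          exact Finset.sum_le_sum hcard
  rw [← Finset.mul_sum] at h6
  have h7 := sum_inv_sq_tail B N hB1
  have hBR : Real.sqrt w / 2 ≤ B := by
    have h8 := Nat.lt_floor_add_one (Real.sqrt w)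
    have h9 : (1 : ℝ) ≤ B := by exact_mod_cast hB1
    rw [← hB] at h8
    linarith
  have h10 : (1 : ℝ) / B ≤ 2 / Real.sqrt w := by
    rw [div_le_div_iff₀ (by positivity) (by positivity)]
    linarith
  calc (S.card : ℝ) ≤ N * ∑ b ∈ Finset.Icc (B + 1) N, (1 / (b : ℝ) ^ 2) := h6
    _ ≤ N * (2 / Real.sqrt w) := by
        refine mul_le_mul_of_nonneg_left (h7.trans h10) (Nat.cast_nonneg N)
    _ = 2 * N / Real.sqrt w := by ring

end Pool.Agent.TN
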